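import Mathlib

/-! MP_7d29a1_pr, STORM Z, leaf Z8: the induction (IN) as a pure statement.

`p k m x` is (an upper bound for) the probability that the sum over `m` zones of the second
differences of step `2 ^ k` exceeds `x` (supremum over all admissible choices of the zones). -/

namespace Pool.Agent.W_7d29a1_Z49

open Finset

/-- iteration of the absorption -/
theorem absorb_iter (f : ℝ → ℝ) (hf1 : ∀ x, f x ≤ 1) (c x0 R : ℝ) (hc : 0 ≤ c) (hR : 0 ≤ R)
    (h : ∀ x, x0 ≤ x → f x ≤ R + (1 / 2) * f (x - c)) (i : ℕ) (x : ℝ) (hx : x0 + i * c ≤ x) :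
    f x ≤ (1 / 2) ^ i + 2 * R := by
  induction i generalizing x with
  | zero =>
      have := hf1 x
      simp only [pow_zero]
      linarith
  | succ i ih =>
      have hx0 : x0 ≤ x := by
        have : (0:ℝ) ≤ ((i + 1 : ℕ) : ℝ) * c := by positivity
        linarith
      have h1 := h x hx0
      have h2 := ih (x - c) (by push_cast at hx; linarith)
      have h3 : f x ≤ R + (1 / 2) * ((1 / 2) ^ i + 2 * R) := by linarith
      have h4 : (1 / 2 : ℝ) ^ (i + 1) = (1 / 2) * (1 / 2) ^ i := by ring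
      rw [h4]; linarith

/-- splitting in equal pieces and a remainder -/
theorem split_iter (B : ℕ) (f : ℕ → ℝ → ℝ)
    (h2 : ∀ m m' x y, 1 ≤ m → 1 ≤ m' → m + m' ≤ B → f (m + m') (x + y) ≤ f m x + f m' y)
    (m0 : ℕ) (hm0 : 1 ≤ m0) (x E : ℝ) (hx : f m0 x ≤ E) (n : ℕ) (hn : 1 ≤ n) (hB : n * m0 ≤ B) :
    f (n * m0) (n * x) ≤ n * E := by
  induction n with
  | zero => omega
  | succ n ih =>
      rcases Nat.eq_zero_or_pos n with h0 | hpos
      · subst h0; simpa using hx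
      · have hB' : n * m0 ≤ B := le_trans (Nat.mul_le_mul_right _ (Nat.le_succ n)) hB
        have h1 := ih hpos hB'
        have h3 := h2 (n * m0) m0 (n * x) x (Nat.mul_pos hpos hm0) hm0
          (by rw [Nat.succ_mul] at hB; exact hB)
        have e1 : (n + 1) * m0 = n * m0 + m0 := by ring
        have e2 : ((n + 1 : ℕ) : ℝ) * x = n * x + x := by push_cast; ring
        rw [e1, e2]
        push_cast
        linarith

/-- the sequence of the error bounds -/
noncomputable def Er (K J : ℕ) (L1 B dl : ℝ) : ℕ → ℝ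
  | 0 => dl
  | (j + 1) => 2 ^ K * (3 * dl + (1 / 2) ^ J + 4 * L1 * B * Er K J L1 B dl j)

theorem Er_nonneg (K J : ℕ) (L1 B dl : ℝ) (hL1 : 0 ≤ L1) (hB : 0 ≤ B) (hdl : 0 ≤ dl) (j : ℕ) :
    0 ≤ Er K J L1 B dl j := by
  induction j with
  | zero => exact hdl
  | succ j ih => simp only [Er]; positivity

theorem Er_le (K J : ℕ) (L1 B dl : ℝ) (hL1 : 1 ≤ L1) (hB : 1 ≤ B) (hdl : 0 ≤ dl) (j : ℕ) :
    Er K J L1 B dl j ≤ (2 ^ (K + 3) * L1 * B) ^ (j + 1) * (3 * dl + (1 / 2) ^ J) := by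
  have hT : 0 ≤ 3 * dl + (1 / 2 : ℝ) ^ J := by positivity
  have hX : 8 ≤ (2:ℝ) ^ (K + 3) * L1 * B := by
    have h1 : (8:ℝ) ≤ 2 ^ (K + 3) := by
      have : (1:ℝ) ≤ 2 ^ K := one_le_pow₀ (by norm_num)
      rw [pow_add]; nlinarith
    have h2 : (1:ℝ) ≤ L1 * B := one_le_mul_of_one_le_of_one_le hL1 hB
    calc (8:ℝ) = 8 * 1 := by ring
      _ ≤ 2 ^ (K + 3) * (L1 * B) := mul_le_mul h1 h2 (by norm_num) (by positivity)
      _ = _ := by ring
  induction j with
  | zero =>
      simp only [Er, zero_add, pow_one]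
      have h3 : dl ≤ 3 * dl + (1 / 2 : ℝ) ^ J := by
        have : (0:ℝ) ≤ (1 / 2 : ℝ) ^ J := by positivity
        linarith
      nlinarith
  | succ j ih =>
      simp only [Er]
      set X := (2:ℝ) ^ (K + 3) * L1 * B with hXd
      set T := 3 * dl + (1 / 2 : ℝ) ^ J with hTd
      have h1 : (2:ℝ) ^ K * (4 * L1 * B) = X / 2 := by
        rw [hXd, pow_add]; ring
      have hXj : (1:ℝ) ≤ X ^ (j + 1) := one_le_pow₀ (by linarith)
      have h2 : (2:ℝ) ^ K ≤ X / 2 := by
        rw [← h1]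
        have : (1:ℝ) ≤ L1 * B := one_le_mul_of_one_le_of_one_le hL1 hB
        have h2K : (0:ℝ) < 2 ^ K := by positivity
        nlinarith
      have hE0 : Er K J L1 B dl j ≤ X ^ (j + 1) * T := ih
      calc (2:ℝ) ^ K * (T + 4 * L1 * B * Er K J L1 B dl j)
          = 2 ^ K * T + (2 ^ K * (4 * L1 * B)) * Er K J L1 B dl j := by ring
        _ ≤ (X / 2) * T + (X / 2) * (X ^ (j + 1) * T) := by
            rw [h1]
            exact add_le_add (mul_le_mul_of_nonneg_right h2 hT)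
              (mul_le_mul_of_nonneg_left hE0 (by linarith))
        _ ≤ (X / 2) * (X ^ (j + 1) * T) + (X / 2) * (X ^ (j + 1) * T) := by
            have : T ≤ X ^ (j + 1) * T := le_mul_of_one_le_left hT hXj
            have hX2 : 0 ≤ X / 2 := by linarith
            nlinarith
        _ = X ^ (j + 1 + 1) * T := by rw [pow_succ X (j + 1)]; ring

/-- One step of (IN), the hypothesis of the induction: for `T √m 2^k P ≤ 1`. -/
def OneStep (p : ℕ → ℕ → ℝ → ℝ) (K B : ℕ) (s T A P c0 G L1 dl : ℝ) : Prop :=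
  ∀ k < K, ∀ m : ℕ, 1 ≤ m → m ≤ B → T * Real.sqrt m * (2 ^ k * P) ≤ 1 → ∀ x : ℝ,
    p k m x ≤ p (k + 1) m (4 * (x - c0 * Real.sqrt m * (2 ^ k * A)))
      + (1 / 2) * p k m (x - c0 * Real.sqrt m * (2 ^ k * A))
      + L1 * ∑ d ∈ Icc 1 ⌊(m : ℝ) / s⌋₊, p k d (G * Real.sqrt d * (2 ^ k * A))
      + L1 * ∑ d ∈ Icc 1 ⌊(m : ℝ) / s⌋₊, p (k + 1) d (G * Real.sqrt d * (2 ^ (k + 1) * A))
      + m * dl

/-- the sum over the short intervals, at the level `k'` (`k' = k` or `k' = k + 1`) -/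
theorem short_sum (p : ℕ → ℕ → ℝ → ℝ) (K B J : ℕ) (s T A P c0 a : ℝ) (hT : 1 ≤ T)
    (hA : 0 ≤ A) (hP : 0 < P) (hs : 16 * ((K : ℝ) + 1) ^ 2 ≤ s) (hc0 : 1 ≤ c0)
    (ha : a = 2 * c0 * ((J : ℝ) + 1))
    (h1 : ∀ k m x y, x ≤ y → p k m y ≤ p k m x)
    (b Ej : ℝ) (j : ℕ) (hEj : 0 ≤ Ej)
    (k k' : ℕ) (hkk : (2:ℝ) ^ k' * P ≤ 2 * (2 ^ k * P)) (hb : b ≤ 4 * a * T * ((K : ℝ) + 1))
    (hj : ∀ m : ℕ, 1 ≤ m → m ≤ B → (m : ℝ) ≤ s ^ j →
      p k' m ((a * Real.sqrt m + b * m * (2 ^ k' * P)) * (2 ^ k' * A)) ≤ m * Ej)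
    (m : ℕ) (hmB : m ≤ B) (hmj : (m : ℝ) ≤ s ^ (j + 1))
    (hcond : T * Real.sqrt m * (2 ^ k * P) ≤ 1) :
    ∑ d ∈ Icc 1 ⌊(m : ℝ) / s⌋₊, p k' d (6 * c0 * ((J : ℝ) + 1) * Real.sqrt d * (2 ^ k' * A))
      ≤ B * (m * Ej) := by
  have hs1 : 1 ≤ s := by
    have : (0:ℝ) ≤ K := Nat.cast_nonneg K
    nlinarith
  have hs0 : 0 < s := by linarith
  have hJ0 : (0:ℝ) ≤ J := Nat.cast_nonneg J
  have ha0 : 0 ≤ a := by rw [ha]; positivity
  set Ak := (2:ℝ) ^ k' * A with hAk
  set Pk := (2:ℝ) ^ k' * P with hPk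
  have hAk0 : 0 ≤ Ak := by positivity
  have hPk0 : 0 < Pk := by positivity
  have hBm : (m:ℝ) ≤ B := by exact_mod_cast hmB
  have hfl : (⌊(m : ℝ) / s⌋₊ : ℝ) ≤ (m:ℝ) / s := Nat.floor_le (by positivity)
  have hms : (m:ℝ) / s ≤ m := div_le_self (by positivity) hs1
  calc ∑ d ∈ Icc 1 ⌊(m : ℝ) / s⌋₊, p k' d (6 * c0 * ((J : ℝ) + 1) * Real.sqrt d * Ak)
      ≤ ∑ d ∈ Icc 1 ⌊(m : ℝ) / s⌋₊, ((m:ℝ) * Ej) := by
        apply Finset.sum_le_sum
        intro d hd
        rw [Finset.mem_Icc] at hd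
        have hdm : (d:ℝ) ≤ (m:ℝ) / s := le_trans (by exact_mod_cast hd.2) hfl
        have hd1 : (1:ℝ) ≤ d := by exact_mod_cast hd.1
        have hdm' : (d:ℝ) ≤ m := le_trans hdm hms
        have hdB : d ≤ B := by
          have : (d:ℝ) ≤ B := le_trans hdm' hBm
          exact_mod_cast this
        have hdj : (d:ℝ) ≤ s ^ j := by
          calc (d:ℝ) ≤ (m:ℝ) / s := hdm
            _ ≤ s ^ (j + 1) / s := by gcongr
            _ = s ^ j := by rw [pow_succ]; field_simp
        have h6 := hj d hd.1 hdB hdj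
        -- comparison of the two levels
        have hsd0 : 0 ≤ Real.sqrt d := Real.sqrt_nonneg _
        have hsqd : Real.sqrt d * Real.sqrt d = d := Real.mul_self_sqrt (by positivity)
        have hss : Real.sqrt s * Real.sqrt s = s := Real.mul_self_sqrt hs0.le
        have hss1 : 4 * ((K:ℝ) + 1) ≤ Real.sqrt s := by
          apply Real.le_sqrt_of_sq_le
          calc (4 * ((K:ℝ) + 1)) ^ 2 = 16 * ((K:ℝ) + 1) ^ 2 := by ring
            _ ≤ s := hs
        have hdk : T * (Real.sqrt s * Real.sqrt d) * Pk ≤ 2 := by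
          have h7 : Real.sqrt s * Real.sqrt d ≤ Real.sqrt m := by
            rw [← Real.sqrt_mul hs0.le]
            apply Real.sqrt_le_sqrt
            rw [le_div_iff₀ hs0] at hdm
            linarith
          calc T * (Real.sqrt s * Real.sqrt d) * Pk ≤ T * Real.sqrt m * Pk := by gcongr
            _ ≤ T * Real.sqrt m * (2 * (2 ^ k * P)) := by gcongr
            _ = 2 * (T * Real.sqrt m * (2 ^ k * P)) := by ring
            _ ≤ 2 := by linarith
        have hcmp : (a * Real.sqrt d + b * d * Pk) * Ak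
            ≤ 6 * c0 * ((J : ℝ) + 1) * Real.sqrt d * Ak := by
          apply mul_le_mul_of_nonneg_right _ hAk0
          have h8 : b * d * Pk ≤ 2 * a * Real.sqrt d := by
            have h9 : b * d * Pk ≤ (4 * a * T * ((K : ℝ) + 1)) * d * Pk := by gcongr
            have h10 : 2 * ((K:ℝ) + 1) * (T * Real.sqrt d * Pk) ≤ 1 := by
              have h11 : 4 * ((K:ℝ) + 1) * (T * Real.sqrt d * Pk) ≤ 2 := by
                calc 4 * ((K:ℝ) + 1) * (T * Real.sqrt d * Pk)
                    ≤ Real.sqrt s * (T * Real.sqrt d * Pk) := by gcongr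
                  _ = T * (Real.sqrt s * Real.sqrt d) * Pk := by ring
                  _ ≤ 2 := hdk
              linarith
            calc b * d * Pk ≤ (4 * a * T * ((K : ℝ) + 1)) * d * Pk := h9
              _ = (2 * a * Real.sqrt d) * (2 * ((K:ℝ) + 1) * (T * Real.sqrt d * Pk)) := by
                  rw [← hsqd]
                  ring_nf
                  rw [show Real.sqrt (Real.sqrt (d:ℝ) ^ 2) = Real.sqrt d by
                    rw [Real.sqrt_sq hsd0]]
                  ring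
              _ ≤ (2 * a * Real.sqrt d) * 1 := by gcongr
              _ = 2 * a * Real.sqrt d := by ring
          calc a * Real.sqrt d + b * d * Pk ≤ a * Real.sqrt d + 2 * a * Real.sqrt d := by
                linarith
            _ = 6 * c0 * ((J : ℝ) + 1) * Real.sqrt d := by rw [ha]; ring
        calc p k' d (6 * c0 * ((J : ℝ) + 1) * Real.sqrt d * Ak)
            ≤ p k' d ((a * Real.sqrt d + b * d * Pk) * Ak) := h1 _ _ _ _ hcmp
          _ ≤ d * Ej := h6
          _ ≤ m * Ej := by gcongr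
    _ = (⌊(m : ℝ) / s⌋₊ : ℝ) * (m * Ej) := by
        rw [Finset.sum_const, Nat.card_Icc]; simp
    _ ≤ B * (m * Ej) := by
        have : (⌊(m : ℝ) / s⌋₊ : ℝ) ≤ B := le_trans hfl (le_trans hms hBm)
        gcongr

/-- case (A): the one step inequality, iterated -/
theorem stepA (p : ℕ → ℕ → ℝ → ℝ) (K B J : ℕ) (s T A P c0 L1 dl : ℝ) (a : ℝ) (hT : 1 ≤ T)
    (hA : 0 ≤ A) (hP : 0 < P) (hs : 16 * ((K : ℝ) + 1) ^ 2 ≤ s) (hc0 : 1 ≤ c0)
    (hL1 : 1 ≤ L1) (ha : a = 2 * c0 * ((J : ℝ) + 1))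
    (hle : ∀ k m x, p k m x ≤ 1)
    (h1 : ∀ k m x y, x ≤ y → p k m y ≤ p k m x)
    (h4 : OneStep p K B s T A P c0 (6 * c0 * ((J : ℝ) + 1)) L1 dl)
    (b b' b1 Ej F : ℝ) (j : ℕ) (hEj : 0 ≤ Ej) (hF : 0 ≤ F) (hdl : 0 ≤ dl)
    (k : ℕ) (hk : k < K) (hb : b ≤ 4 * a * T * ((K : ℝ) + 1))
    (hj : ∀ m : ℕ, 1 ≤ m → m ≤ B → (m : ℝ) ≤ s ^ j →
      p k m ((a * Real.sqrt m + b * m * (2 ^ k * P)) * (2 ^ k * A)) ≤ m * Ej)
    (hb1 : b1 ≤ 4 * a * T * ((K : ℝ) + 1))
    (hj1 : ∀ m : ℕ, 1 ≤ m → m ≤ B → (m : ℝ) ≤ s ^ j →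
      p (k + 1) m ((a * Real.sqrt m + b1 * m * (2 ^ (k + 1) * P)) * (2 ^ (k + 1) * A)) ≤ m * Ej)
    (m : ℕ) (hm : 1 ≤ m) (hmB : m ≤ B) (hmj : (m : ℝ) ≤ s ^ (j + 1))
    (hk1 : p (k + 1) m ((a * Real.sqrt m + b' * m * (2 ^ (k + 1) * P)) * (2 ^ (k + 1) * A))
      ≤ m * F)
    (hcond : T * Real.sqrt m * (2 ^ k * P) ≤ 1) :
    p k m ((a * Real.sqrt m + b' * m * (2 ^ k * P)) * (2 ^ k * A))
      ≤ m * (2 * F + (4 * L1 * B * Ej + 2 * dl + (1 / 2) ^ J)) := by
  have hs1 : 1 ≤ s := by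
    have : (0:ℝ) ≤ K := Nat.cast_nonneg K
    nlinarith
  have hs0 : 0 < s := by linarith
  have hJ0 : (0:ℝ) ≤ J := Nat.cast_nonneg J
  have ha0 : 0 ≤ a := by rw [ha]; positivity
  have hm1 : (1:ℝ) ≤ (m:ℝ) := by exact_mod_cast hm
  have hsm : 1 ≤ Real.sqrt m := by
    rw [show (1:ℝ) = Real.sqrt 1 by simp]; exact Real.sqrt_le_sqrt hm1
  set Ak := (2:ℝ) ^ k * A with hAk
  set Pk := (2:ℝ) ^ k * P with hPk
  have hAk0 : 0 ≤ Ak := by positivity
  have hPk0 : 0 < Pk := by positivity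
  have hBm : (m:ℝ) ≤ B := by exact_mod_cast hmB
  have hsum := short_sum p K B J s T A P c0 a hT hA hP hs hc0 ha h1 b Ej j hEj k k
    (by nlinarith [show (0:ℝ) < 2 ^ k * P by positivity]) hb hj m hmB hmj hcond
  have hsum1 := short_sum p K B J s T A P c0 a hT hA hP hs hc0 ha h1 b1 Ej j hEj k (k + 1)
    (by rw [pow_succ]; linarith [show (2:ℝ) ^ k * 2 * P = 2 * (2 ^ k * P) by ring]) hb1 hj1
    m hmB hmj hcond
  set c := c0 * Real.sqrt m * Ak with hc
  set x0 := (a * Real.sqrt m + b' * m * Pk) * Ak - J * c with hx0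
  set R := (m:ℝ) * (F + 2 * L1 * B * Ej + dl) with hR
  have hiter := absorb_iter (fun x => p k m x) (fun x => hle k m x) c x0 R (by positivity)
    (by positivity) (fun x hx => by
      have h6 := h4 k hk m hm hmB hcond x
      have h7 : (a * Real.sqrt m + b' * m * (2 ^ (k + 1) * P)) * (2 ^ (k + 1) * A)
          ≤ 4 * (x - c0 * Real.sqrt m * Ak) := by
        have e1 : (a * Real.sqrt m + b' * m * (2 ^ (k + 1) * P)) * (2 ^ (k + 1) * A)
            = (2 * a * Real.sqrt m + 4 * b' * m * Pk) * Ak := by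
          rw [hPk, hAk, pow_succ]; ring
        rw [e1]
        have h8 : (2 * a * Real.sqrt m + 4 * b' * m * Pk) * Ak
            ≤ 4 * (x0 - c0 * Real.sqrt m * Ak) := by
          have e2 : 4 * (x0 - c0 * Real.sqrt m * Ak)
              = (4 * a * Real.sqrt m + 4 * b' * m * Pk - 4 * J * c0 * Real.sqrt m
                - 4 * c0 * Real.sqrt m) * Ak := by
            rw [hx0, hc]; ring
          rw [e2]
          apply mul_le_mul_of_nonneg_right _ hAk0
          have h9 : 4 * J * c0 * Real.sqrt m + 4 * c0 * Real.sqrt m = 2 * a * Real.sqrt m := by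
            rw [ha]; ring
          linarith
        linarith
      have h8 := h1 (k + 1) m _ _ h7
      have h9 : L1 * ∑ d ∈ Icc 1 ⌊(m : ℝ) / s⌋₊,
          p k d (6 * c0 * ((J : ℝ) + 1) * Real.sqrt d * (2 ^ k * A)) ≤ L1 * (B * (m * Ej)) :=
        mul_le_mul_of_nonneg_left hsum (by linarith)
      have h9' : L1 * ∑ d ∈ Icc 1 ⌊(m : ℝ) / s⌋₊,
          p (k + 1) d (6 * c0 * ((J : ℝ) + 1) * Real.sqrt d * (2 ^ (k + 1) * A))
            ≤ L1 * (B * (m * Ej)) :=
        mul_le_mul_of_nonneg_left hsum1 (by linarith)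
      show p k m x ≤ R + (1 / 2) * p k m (x - c)
      have e3 : c0 * Real.sqrt m * (2 ^ k * A) = c := by rw [hc, hAk]
      rw [e3] at h6
      rw [hR]
      linarith [h6, h8, h9, h9', hk1]) J ((a * Real.sqrt m + b' * m * Pk) * Ak) (by rw [hx0]; linarith)
  have h12 : (1 / 2 : ℝ) ^ J ≤ m * (1 / 2) ^ J := le_mul_of_one_le_left (by positivity) hm1
  calc p k m ((a * Real.sqrt m + b' * m * Pk) * Ak) ≤ (1 / 2) ^ J + 2 * R := hiter
    _ ≤ m * (1 / 2) ^ J + 2 * R := by linarith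
    _ = m * (2 * F + (4 * L1 * B * Ej + 2 * dl + (1 / 2) ^ J)) := by rw [hR]; ring

/-- case (B): many zones, splitting -/
theorem stepB (p : ℕ → ℕ → ℝ → ℝ) (B : ℕ) (T A P a dl b b' F : ℝ)
    (hA : 0 ≤ A) (hP : 0 < P) (hT : 1 ≤ T) (ha : 2 ≤ a) (hdl : dl ≤ F) (hb' : 0 ≤ b')
    (hbb : b' + 4 * a * T ≤ b)
    (h1 : ∀ k m x y, x ≤ y → p k m y ≤ p k m x)
    (h2 : ∀ k m m' x y, 1 ≤ m → 1 ≤ m' → m + m' ≤ B → p k (m + m') (x + y) ≤ p k m x + p k m' y)
    (k : ℕ) (h3 : ∀ m : ℕ, 1 ≤ m → m ≤ B → p k m (2 * m * (2 ^ k * A)) ≤ m * dl)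
    (m : ℕ) (hm : 1 ≤ m) (hmB : m ≤ B)
    (hcond : 1 < T * Real.sqrt m * (2 ^ k * P))
    (hsm : ∀ m' : ℕ, 1 ≤ m' → m' ≤ m → T * Real.sqrt m' * (2 ^ k * P) ≤ 1 →
      p k m' ((a * Real.sqrt m' + b' * m' * (2 ^ k * P)) * (2 ^ k * A)) ≤ m' * F) :
    p k m ((a * Real.sqrt m + b * m * (2 ^ k * P)) * (2 ^ k * A)) ≤ m * F := by
  have hs0 : 0 < T := by linarith
  have hm1 : (1:ℝ) ≤ (m:ℝ) := by exact_mod_cast hm
  set Ak := (2:ℝ) ^ k * A with hAk
  set Pk := (2:ℝ) ^ k * P with hPk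
  have hAk0 : 0 ≤ Ak := by positivity
  have hPk0 : 0 < Pk := by positivity
  have hb0 : 4 * a * T ≤ b := by linarith
  by_cases hbig : 1 ≤ T * Pk
  · -- trivial bound
    have hcmp : 2 * m * Ak ≤ (a * Real.sqrt m + b * m * Pk) * Ak := by
      apply mul_le_mul_of_nonneg_right _ hAk0
      have h5 : 4 * a * (T * Pk) * m ≤ b * m * Pk := by
        calc 4 * a * (T * Pk) * m = (4 * a * T) * m * Pk := by ring
          _ ≤ b * m * Pk := by gcongr
      have h6 : 4 * a * 1 * m ≤ 4 * a * (T * Pk) * m := by gcongr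
      have h7 : 0 ≤ a * Real.sqrt m := by positivity
      nlinarith
    calc p k m ((a * Real.sqrt m + b * m * Pk) * Ak) ≤ p k m (2 * m * Ak) := h1 _ _ _ _ hcmp
      _ ≤ m * dl := h3 m hm hmB
      _ ≤ m * F := by gcongr
  · push Not at hbig
    set v := T * Pk with hv
    have hv0 : 0 < v := by positivity
    set y := 1 / v with hy
    have hy1 : 1 < y := by rw [hy, lt_div_iff₀ hv0]; linarith
    have hy0 : 0 < y := by linarith
    set m0 := ⌊y ^ 2⌋₊ with hm0
    have hm0l : (m0 : ℝ) ≤ y ^ 2 := Nat.floor_le (by positivity)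
    have hm0u : y ^ 2 < m0 + 1 := Nat.lt_floor_add_one _
    have hm01 : 1 ≤ m0 := by
      rw [hm0]; apply Nat.le_floor; push_cast; nlinarith
    have hm01' : (1:ℝ) ≤ m0 := by exact_mod_cast hm01
    have hcm : ∀ m' : ℕ, m' ≤ m0 → T * Real.sqrt m' * Pk ≤ 1 := by
      intro m' hm'
      have h5 : Real.sqrt m' ≤ y := by
        apply Real.sqrt_le_iff.mpr
        refine ⟨hy0.le, ?_⟩
        have : (m' : ℝ) ≤ m0 := by exact_mod_cast hm'
        linarith
      calc T * Real.sqrt m' * Pk = v * Real.sqrt m' := by rw [hv]; ring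
        _ ≤ v * y := by gcongr
        _ = 1 := by rw [hy]; field_simp
    have hmy : y < Real.sqrt m := by
      rw [hy, div_lt_iff₀ hv0]
      calc 1 < T * Real.sqrt m * Pk := hcond
        _ = Real.sqrt m * v := by rw [hv]; ring
    have hsqm : Real.sqrt m * Real.sqrt m = m := Real.mul_self_sqrt (by positivity)
    have hm0m : m0 < m := by
      have h5 : (m0:ℝ) < m := by
        calc (m0:ℝ) ≤ y ^ 2 := hm0l
          _ < Real.sqrt m ^ 2 := by gcongr
          _ = m := by rw [sq, hsqm]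
      exact_mod_cast h5
    set n := m / m0 with hn
    set r := m % m0 with hr
    have hnr : n * m0 + r = m := by
      rw [hn, hr, mul_comm]; exact Nat.div_add_mod m m0
    have hn1 : 1 ≤ n := by
      rw [hn]; exact Nat.div_pos hm0m.le hm01
    have hn1' : (1:ℝ) ≤ n := by exact_mod_cast hn1
    have hrm : r < m0 := Nat.mod_lt _ hm01
    have hnm : (n:ℝ) * m0 + r = m := by exact_mod_cast hnr
    have hnmB : n * m0 ≤ B := by omega
    set x0 := (a * Real.sqrt m0 + b' * m0 * Pk) * Ak with hx0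
    have hx0F : p k m0 x0 ≤ m0 * F := hsm m0 hm01 hm0m.le (hcm m0 le_rfl)
    have hmain := split_iter B (fun m x => p k m x) (fun m m' x y hm hm' hmm => h2 k m m' x y hm hm' hmm)
      m0 hm01 x0 (m0 * F) hx0F n hn1 hnmB
    -- comparison of square roots
    have hsq0 : 1 ≤ Real.sqrt m0 := by
      rw [show (1:ℝ) = Real.sqrt 1 by simp]; exact Real.sqrt_le_sqrt hm01'
    have hsq00 : Real.sqrt m0 * Real.sqrt m0 = m0 := Real.mul_self_sqrt (by positivity)
    have hkey : 1 ≤ 2 * v * Real.sqrt m0 := by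
      have h5 : y ≤ 2 * Real.sqrt m0 := by
        have h6 : y ^ 2 ≤ (2 * Real.sqrt m0) ^ 2 := by
          rw [mul_pow, sq (Real.sqrt m0), hsq00]; nlinarith
        exact le_of_sq_le_sq h6 (by positivity)
      have h7 : v * y ≤ v * (2 * Real.sqrt m0) := by gcongr
      have h8 : v * y = 1 := by rw [hy]; field_simp
      linarith
    have hroot : (n:ℝ) * Real.sqrt m0 + Real.sqrt r ≤ 4 * v * m := by
      have h5 : Real.sqrt r ≤ Real.sqrt m0 := by
        apply Real.sqrt_le_sqrt; exact_mod_cast hrm.le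
      have h6 : (n:ℝ) * Real.sqrt m0 + Real.sqrt r ≤ 2 * ((n:ℝ) * Real.sqrt m0) := by
        have : Real.sqrt m0 ≤ n * Real.sqrt m0 := le_mul_of_one_le_left (by positivity) hn1'
        linarith
      have h7 : (n:ℝ) * Real.sqrt m0 ≤ 2 * v * (n * m0) := by
        calc (n:ℝ) * Real.sqrt m0 = n * Real.sqrt m0 * 1 := by ring
          _ ≤ n * Real.sqrt m0 * (2 * v * Real.sqrt m0) := by gcongr
          _ = 2 * v * (n * (Real.sqrt m0 * Real.sqrt m0)) := by ring
          _ = 2 * v * (n * m0) := by rw [hsq00]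
      have h8 : (n:ℝ) * m0 ≤ m := by
        have : (0:ℝ) ≤ r := Nat.cast_nonneg r
        linarith
      calc (n:ℝ) * Real.sqrt m0 + Real.sqrt r ≤ 2 * ((n:ℝ) * Real.sqrt m0) := h6
        _ ≤ 2 * (2 * v * (n * m0)) := by linarith
        _ ≤ 2 * (2 * v * m) := by gcongr
        _ = 4 * v * m := by ring
    have hfin : (a * ((n:ℝ) * Real.sqrt m0 + Real.sqrt r) + b' * m * Pk) * Ak
        ≤ (a * Real.sqrt m + b * m * Pk) * Ak := by
      apply mul_le_mul_of_nonneg_right _ hAk0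
      have h5 : a * ((n:ℝ) * Real.sqrt m0 + Real.sqrt r) ≤ a * (4 * v * m) := by gcongr
      have h6 : (b' + 4 * a * T) * m * Pk ≤ b * m * Pk := by gcongr
      have h7 : a * (4 * v * m) = 4 * a * T * m * Pk := by rw [hv]; ring
      have h8 : 0 ≤ a * Real.sqrt m := by positivity
      nlinarith
    refine le_trans (h1 _ _ _ _ hfin) ?_
    rcases Nat.eq_zero_or_pos r with hr0 | hrpos
    · have e1 : (a * ((n:ℝ) * Real.sqrt m0 + Real.sqrt r) + b' * m * Pk) * Ak = n * x0 := by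
        rw [hr0] at hnm ⊢
        simp only [Nat.cast_zero, Real.sqrt_zero, add_zero] at hnm ⊢
        rw [hx0, ← hnm]; ring
      have e2 : m = n * m0 := by omega
      rw [e1]
      calc p k m (n * x0) = p k (n * m0) (n * x0) := by rw [← e2]
        _ ≤ n * (m0 * F) := hmain
        _ = m * F := by rw [← hnm, hr0]; push_cast; ring
    · have hr2 := hsm r hrpos (by omega) (hcm r hrm.le)
      have e1 : (a * ((n:ℝ) * Real.sqrt m0 + Real.sqrt r) + b' * m * Pk) * Ak
          = n * x0 + (a * Real.sqrt r + b' * r * Pk) * Ak := by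
        rw [hx0, ← hnm]; ring
      rw [e1]
      have h9 := h2 k (n * m0) r (n * x0) ((a * Real.sqrt r + b' * r * Pk) * Ak)
        (Nat.mul_pos hn1 hm01) hrpos (by omega)
      rw [hnr] at h9
      calc p k m (n * x0 + (a * Real.sqrt r + b' * r * Pk) * Ak)
          ≤ p k (n * m0) (n * x0) + p k r ((a * Real.sqrt r + b' * r * Pk) * Ak) := h9
        _ ≤ n * (m0 * F) + r * F := add_le_add hmain hr2
        _ = m * F := by rw [← hnm]; ring

theorem in_rec (p : ℕ → ℕ → ℝ → ℝ) (K B J N : ℕ) (s T A P c0 L1 dl : ℝ) (hT : 1 ≤ T)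
    (hB : 1 ≤ B) (hA : 0 ≤ A) (hP : 0 < P) (hs : 16 * ((K : ℝ) + 1) ^ 2 ≤ s) (hc0 : 1 ≤ c0)
    (hL1 : 1 ≤ L1) (hdl : 0 ≤ dl)
    (hle : ∀ k m x, p k m x ≤ 1)
    (h1 : ∀ k m x y, x ≤ y → p k m y ≤ p k m x)
    (h2 : ∀ k m m' x y, 1 ≤ m → 1 ≤ m' → m + m' ≤ B → p k (m + m') (x + y) ≤ p k m x + p k m' y)
    (h3 : ∀ k ≤ K, ∀ m : ℕ, 1 ≤ m → m ≤ B → p k m (2 * m * (2 ^ k * A)) ≤ m * dl)
    (h4 : OneStep p K B s T A P c0 (6 * c0 * ((J : ℝ) + 1)) L1 dl)
    (h5 : 1 ≤ T * (2 ^ K * P)) (hN : (B : ℝ) ≤ s ^ N) :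
    ∀ k ≤ K, ∀ m : ℕ, 1 ≤ m → m ≤ B →
      p k m ((2 * c0 * ((J : ℝ) + 1) * Real.sqrt m
        + 8 * c0 * ((J : ℝ) + 1) * T * ((K : ℝ) + 1) * m * (2 ^ k * P)) * (2 ^ k * A))
      ≤ m * ((2 ^ (K + 3) * L1 * B) ^ (N + 1) * (3 * dl + (1 / 2) ^ J)) := by
  set a := 2 * c0 * ((J : ℝ) + 1) with ha
  have hJ0 : (0:ℝ) ≤ J := Nat.cast_nonneg J
  have hK0 : (0:ℝ) ≤ K := Nat.cast_nonneg K
  have ha2 : 2 ≤ a := by rw [ha]; nlinarith
  have hs1 : 1 ≤ s := by nlinarith
  have hB1 : (1:ℝ) ≤ B := by exact_mod_cast hB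
  have hB0 : (0:ℝ) ≤ B := by linarith
  have hL0 : 0 ≤ L1 := by linarith
  -- level dependent linear constants
  set b : ℕ → ℝ := fun i => 4 * a * T * ((i : ℝ) + 1) with hb
  have hclaim : ∀ j : ℕ, ∀ i ≤ K, ∀ m : ℕ, 1 ≤ m → m ≤ B → (m : ℝ) ≤ s ^ j →
      p (K - i) m ((a * Real.sqrt m + b i * m * (2 ^ (K - i) * P)) * (2 ^ (K - i) * A))
        ≤ m * Er K J L1 B dl j := by
    intro j
    induction j with
    | zero =>
        intro i hi m hm hmB hmj
        have hm1 : m = 1 := by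
          have : (m:ℝ) ≤ 1 := by simpa using hmj
          have : m ≤ 1 := by exact_mod_cast this
          omega
        subst hm1
        have hcmp : 2 * ((1:ℕ):ℝ) * (2 ^ (K - i) * A) ≤
            (a * Real.sqrt ((1:ℕ):ℝ) + b i * ((1:ℕ):ℝ) * (2 ^ (K - i) * P)) * (2 ^ (K - i) * A) := by
          apply mul_le_mul_of_nonneg_right _ (by positivity)
          simp only [Nat.cast_one, Real.sqrt_one, mul_one]
          have : 0 ≤ b i * (2 ^ (K - i) * P) := by simp only [hb]; positivity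
          linarith
        exact le_trans (h1 _ _ _ _ hcmp) (h3 _ (Nat.sub_le _ _) 1 le_rfl hB)
    | succ j ihj =>
        set Y := 4 * L1 * B * Er K J L1 B dl j + 2 * dl + (1 / 2 : ℝ) ^ J with hY
        have hE0 := Er_nonneg K J L1 B dl hL0 hB0 hdl j
        have hY0 : 0 ≤ Y := by rw [hY]; positivity
        have hF : ∀ i : ℕ, dl ≤ 2 ^ i * (dl + Y) - Y := by
          intro i
          have : (1:ℝ) ≤ 2 ^ i := one_le_pow₀ (by norm_num)
          nlinarith
        have hinner : ∀ i ≤ K, ∀ m : ℕ, 1 ≤ m → m ≤ B → (m : ℝ) ≤ s ^ (j + 1) →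
            p (K - i) m ((a * Real.sqrt m + b i * m * (2 ^ (K - i) * P)) * (2 ^ (K - i) * A))
              ≤ m * (2 ^ i * (dl + Y) - Y) := by
          intro i
          induction i with
          | zero =>
              intro _ m hm hmB hmj
              have hm1 : (1:ℝ) ≤ m := by exact_mod_cast hm
              have hcmp : 2 * (m:ℝ) * (2 ^ K * A) ≤
                  (a * Real.sqrt m + b 0 * m * (2 ^ K * P)) * (2 ^ K * A) := by
                apply mul_le_mul_of_nonneg_right _ (by positivity)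
                have h5' : 4 * a * 1 * m ≤ 4 * a * (T * (2 ^ K * P)) * m := by gcongr
                have h6 : b 0 * m * (2 ^ K * P) = 4 * a * (T * (2 ^ K * P)) * m := by
                  simp only [hb, Nat.cast_zero]; ring
                have h7 : 0 ≤ a * Real.sqrt m := by positivity
                nlinarith
              simp only [Nat.sub_zero, pow_zero, one_mul, add_sub_cancel_right]
              exact le_trans (h1 _ _ _ _ hcmp) (h3 K le_rfl m hm hmB)
          | succ i ihi =>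
              intro hi m hm hmB hmj
              have hkk : K - i = K - (i + 1) + 1 := by omega
              have hklt : K - (i + 1) < K := by omega
              have hFi : 0 ≤ 2 ^ i * (dl + Y) - Y := le_trans hdl (hF i)
              have hb' : 0 ≤ b i := by simp only [hb]; positivity
              have hbK : b (i + 1) ≤ 4 * a * T * ((K : ℝ) + 1) := by
                simp only [hb]
                have : ((i + 1 : ℕ) : ℝ) ≤ K := by exact_mod_cast hi
                gcongr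
              have hbi : b i ≤ 4 * a * T * ((K : ℝ) + 1) := by
                simp only [hb]
                have : ((i : ℕ) : ℝ) ≤ K := by exact_mod_cast (by omega : i ≤ K)
                gcongr
              have hprev := ihi (by omega)
              have hA' : ∀ m' : ℕ, 1 ≤ m' → m' ≤ m →
                  T * Real.sqrt m' * (2 ^ (K - (i + 1)) * P) ≤ 1 →
                  p (K - (i + 1)) m' ((a * Real.sqrt m' + b i * m' * (2 ^ (K - (i + 1)) * P))
                    * (2 ^ (K - (i + 1)) * A)) ≤ m' * (2 ^ (i + 1) * (dl + Y) - Y) := by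
                intro m' hm' hmm' hc
                have hmB' : m' ≤ B := le_trans hmm' hmB
                have hmj' : (m':ℝ) ≤ s ^ (j + 1) :=
                  le_trans (by exact_mod_cast hmm') hmj
                have h6 := hprev m' hm' hmB' hmj'
                rw [hkk] at h6
                have hj1 := ihj i (by omega)
                rw [hkk] at hj1
                have h7 := stepA p K B J s T A P c0 L1 dl a hT hA hP hs hc0 hL1 ha hle h1 h4
                  (b (i + 1)) (b i) (b i) (Er K J L1 B dl j) (2 ^ i * (dl + Y) - Y) j hE0 hFi hdl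
                  (K - (i + 1)) hklt hbK (fun m hm hmB hmj => ihj (i + 1) hi m hm hmB hmj)
                  hbi hj1 m' hm' hmB' hmj' h6 hc
                refine le_trans h7 (le_of_eq ?_)
                rw [hY, pow_succ]; ring
              by_cases hc : T * Real.sqrt m * (2 ^ (K - (i + 1)) * P) ≤ 1
              · refine le_trans (h1 _ _ _ _ ?_) (hA' m hm le_rfl hc)
                apply mul_le_mul_of_nonneg_right _ (by positivity)
                have : b i ≤ b (i + 1) := by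
                  simp only [hb]; push_cast
                  have : 0 ≤ 4 * a * T := by positivity
                  nlinarith
                gcongr
              · push Not at hc
                refine stepB p B T A P a dl (b (i + 1)) (b i) (2 ^ (i + 1) * (dl + Y) - Y)
                  hA hP hT ha2 (hF (i + 1)) hb' ?_ h1 h2 (K - (i + 1))
                  (h3 _ (Nat.sub_le _ _)) m hm hmB hc hA'
                simp only [hb]; push_cast; ring_nf; exact le_rfl
        intro i hi m hm hmB hmj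
        refine le_trans (hinner i hi m hm hmB hmj) ?_
        apply mul_le_mul_of_nonneg_left _ (by positivity)
        have h6 : (2:ℝ) ^ i ≤ 2 ^ K := pow_le_pow_right₀ (by norm_num) hi
        have h7 : Er K J L1 B dl (j + 1) = 2 ^ K * (dl + Y) := by
          simp only [Er]; rw [hY]; ring
        rw [h7]
        have h8 : 2 ^ i * (dl + Y) ≤ 2 ^ K * (dl + Y) := by gcongr
        linarith
  intro k hk m hm hmB
  have hmN : (m:ℝ) ≤ s ^ N := le_trans (by exact_mod_cast hmB) hN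
  have h6 := hclaim N (K - k) (Nat.sub_le _ _) m hm hmB hmN
  have e1 : K - (K - k) = k := by omega
  rw [e1] at h6
  have h7 := Er_le K J L1 B dl hL1 hB1 hdl N
  refine le_trans (le_trans (h1 _ _ _ _ ?_) h6) (mul_le_mul_of_nonneg_left h7 (by positivity))
  apply mul_le_mul_of_nonneg_right _ (by positivity)
  have h8 : b (K - k) ≤ 8 * c0 * ((J : ℝ) + 1) * T * ((K : ℝ) + 1) := by
    simp only [hb]
    have h9 : ((K - k : ℕ) : ℝ) ≤ K := by exact_mod_cast Nat.sub_le K k
    calc 4 * a * T * (((K - k : ℕ) : ℝ) + 1) ≤ 4 * a * T * ((K : ℝ) + 1) := by gcongr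
      _ = 8 * c0 * ((J : ℝ) + 1) * T * ((K : ℝ) + 1) := by rw [ha]; ring
  gcongr

end Pool.Agent.W_7d29a1_Z49
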