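import Mathlib

/-! MP_7d29a1_pr, STORM Z: COUNT (helper72, 60320): the number of near ties. -/

namespace Pool.Agent.W_7d29a1_Z49

open Finset

theorem union_bd {Y ι : Type*} (pr : Set Y → ℝ) (he : pr ∅ = 0)
    (hs : ∀ A B, pr (A ∪ B) ≤ pr A + pr B) (F : Finset ι) (A : ι → Set Y) :
    pr (⋃ i ∈ F, A i) ≤ ∑ i ∈ F, pr (A i) := by
  classical
  induction F using Finset.induction_on with
  | empty => simp [he]
  | insert i F hi ih =>
      rw [Finset.set_biUnion_insert, Finset.sum_insert hi]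
      exact le_trans (hs _ _) (by linarith)

theorem inter_mem {Y : Type*} (Ad : Set (Set Y)) (hu : Set.univ ∈ Ad)
    (hi : ∀ A B, A ∈ Ad → B ∈ Ad → A ∩ B ∈ Ad) (E : ℕ → Set Y) (T : Finset ℕ)
    (hE : ∀ u ∈ T, E u ∈ Ad) : (⋂ u ∈ T, E u) ∈ Ad := by
  classical
  induction T using Finset.induction_on with
  | empty => simpa using hu
  | insert u T hu' ih =>
      rw [Finset.set_biInter_insert]
      exact hi _ _ (hE u (by simp)) (ih (fun v hv => hE v (by simp [hv])))

theorem inter_bd {Y : Type*} (pr : Set Y → ℝ) (h0 : ∀ A, 0 ≤ pr A) (h1 : ∀ A, pr A ≤ 1)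
    (E : ℕ → Set Y) (U : ℕ) (Ad : ℕ → Set (Set Y)) (hadu : ∀ u < U, Set.univ ∈ Ad u)
    (hadi : ∀ u < U, ∀ A B, A ∈ Ad u → B ∈ Ad u → A ∩ B ∈ Ad u)
    (hade : ∀ u < U, ∀ u' < U, (u + 2 ≤ u' ∨ u' + 2 ≤ u) → E u' ∈ Ad u)
    (kap delta : ℝ) (hk : 0 ≤ kap) (hk1 : kap ≤ 1) (hd : 0 ≤ delta)
    (hE : ∀ u < U, ∀ A ∈ Ad u, pr (A ∩ E u) ≤ kap * pr A + delta)
    (T : Finset ℕ) (hTU : ∀ u ∈ T, u < U)
    (hT : ∀ u ∈ T, ∀ u' ∈ T, u ≠ u' → (u + 2 ≤ u' ∨ u' + 2 ≤ u)) :
    pr (⋂ u ∈ T, E u) ≤ kap ^ T.card + T.card * delta := by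
  classical
  induction T using Finset.induction_on with
  | empty => simpa using h1 Set.univ
  | insert u T hu ih =>
      have ih' := ih (fun v hv => hTU v (by simp [hv]))
        (fun v hv v' hv' hne => hT v (by simp [hv]) v' (by simp [hv']) hne)
      have huU := hTU u (by simp)
      have hmem : (⋂ v ∈ T, E v) ∈ Ad u := by
        apply inter_mem (Ad u) (hadu u huU) (hadi u huU)
        intro v hv
        exact hade u huU v (hTU v (by simp [hv]))
          (hT u (by simp) v (by simp [hv]) (fun h => hu (h ▸ hv)))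
      rw [Finset.set_biInter_insert, Set.inter_comm, Finset.card_insert_of_notMem hu]
      have h2 := hE u huU _ hmem
      have h3 := h0 (⋂ v ∈ T, E v)
      have h4 : kap * pr (⋂ v ∈ T, E v) ≤ kap * (kap ^ T.card + T.card * delta) :=
        mul_le_mul_of_nonneg_left ih' hk
      have h5 : kap * (T.card * delta) ≤ T.card * delta :=
        mul_le_of_le_one_left (by positivity) hk1
      push_cast
      rw [pow_succ]
      nlinarith

theorem choose_le_pow' (n r : ℕ) : n.choose r ≤ n ^ r := by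
  calc n.choose r ≤ n.choose r * r.factorial := Nat.le_mul_of_pos_right _ (Nat.factorial_pos r)
    _ = n.descFactorial r := by rw [Nat.descFactorial_eq_factorial_mul_choose, mul_comm]
    _ ≤ n ^ r := Nat.descFactorial_le_pow n r

open scoped Classical in
/-- COUNT: the number of near ties is at most `2 N0 (U / M + 1)`. -/
theorem count49 {Y : Type*} (pr : Set Y → ℝ) (he : pr ∅ = 0) (h0 : ∀ A, 0 ≤ pr A)
    (h1 : ∀ A, pr A ≤ 1) (hm : ∀ A B, A ⊆ B → pr A ≤ pr B)
    (hs : ∀ A B, pr (A ∪ B) ≤ pr A + pr B)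
    (E : ℕ → Set Y) (U M N0 : ℕ) (hM : 1 ≤ M)
    (Ad : ℕ → Set (Set Y)) (hadu : ∀ u < U, Set.univ ∈ Ad u)
    (hadi : ∀ u < U, ∀ A B, A ∈ Ad u → B ∈ Ad u → A ∩ B ∈ Ad u)
    (hade : ∀ u < U, ∀ u' < U, (u + 2 ≤ u' ∨ u' + 2 ≤ u) → E u' ∈ Ad u)
    (kap delta : ℝ) (hk : 0 ≤ kap) (hd : 0 ≤ delta)
    (hE : ∀ u < U, ∀ A ∈ Ad u, pr (A ∩ E u) ≤ kap * pr A + delta) :
    pr {y | 2 * N0 * (U / M + 1) < ((range U).filter (fun u => y ∈ E u)).card}
      ≤ 2 * (((U / M : ℕ) : ℝ) + 1) * M ^ N0 * (kap ^ N0 + N0 * delta) := by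
  have hMr : (1:ℝ) ≤ M := by exact_mod_cast hM
  have hMp : (1:ℝ) ≤ (M:ℝ) ^ N0 := one_le_pow₀ hMr
  have hU0 : (0:ℝ) ≤ ((U / M : ℕ) : ℝ) := Nat.cast_nonneg _
  rcases le_or_gt kap 1 with hk1 | hk1
  swap
  · -- trivial case
    refine le_trans (h1 _) ?_
    have h2 : (1:ℝ) ≤ kap ^ N0 + N0 * delta := by
      have h3 : (1:ℝ) ≤ kap ^ N0 := one_le_pow₀ hk1.le
      have h4 : (0:ℝ) ≤ N0 * delta := by positivity
      linarith
    have h5 : (1:ℝ) ≤ 2 * (((U / M : ℕ) : ℝ) + 1) := by linarith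
    have h6 : (1:ℝ) ≤ 2 * (((U / M : ℕ) : ℝ) + 1) * M ^ N0 :=
      one_le_mul_of_one_le_of_one_le h5 hMp
    exact one_le_mul_of_one_le_of_one_le h6 h2
  -- the cells
  let C : ℕ × ℕ → Finset ℕ := fun c => (range U).filter (fun u => u / M = c.1 ∧ u % 2 = c.2)
  let I : Finset (ℕ × ℕ) := range (U / M + 1) ×ˢ range 2
  have hIcard : I.card = 2 * (U / M + 1) := by
    simp only [I, Finset.card_product, Finset.card_range]; ring
  have hCcard : ∀ c, (C c).card ≤ M := by
    intro c
    have hsub : C c ⊆ Finset.Ico (c.1 * M) (c.1 * M + M) := by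
      intro u hu
      simp only [C, Finset.mem_filter, Finset.mem_range] at hu
      rw [Finset.mem_Ico]
      have h2 := Nat.div_add_mod u M
      have h3 := Nat.mod_lt u (show 0 < M by omega)
      rw [hu.2.1] at h2
      constructor
      · rw [mul_comm]; omega
      · rw [mul_comm]; omega
    calc (C c).card ≤ (Finset.Ico (c.1 * M) (c.1 * M + M)).card := Finset.card_le_card hsub
      _ = M := by simp
  have hsub : {y | 2 * N0 * (U / M + 1) < ((range U).filter (fun u => y ∈ E u)).card}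
      ⊆ ⋃ c ∈ I, ⋃ T ∈ (C c).powersetCard N0, ⋂ u ∈ T, E u := by
    intro y hy
    simp only [Set.mem_ofPred_eq] at hy
    have hmaps : ∀ u ∈ (range U).filter (fun u => y ∈ E u), (u / M, u % 2) ∈ I := by
      intro u hu
      simp only [Finset.mem_filter, Finset.mem_range] at hu
      simp only [I, Finset.mem_product, Finset.mem_range]
      refine ⟨?_, Nat.mod_lt _ (by norm_num)⟩
      have := Nat.div_le_div_right (c := M) hu.1.le
      omega
    obtain ⟨c, hc, hcard⟩ := Finset.exists_lt_card_fiber_of_mul_lt_card_of_maps_to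
      (n := N0) hmaps (by rw [hIcard]; calc 2 * (U / M + 1) * N0 = 2 * N0 * (U / M + 1) := by ring
        _ < _ := hy)
    obtain ⟨T, hTs, hTc⟩ := Finset.exists_subset_card_eq hcard.le
    simp only [Set.mem_iUnion]
    refine ⟨c, hc, T, ?_, ?_⟩
    · rw [Finset.mem_powersetCard]
      refine ⟨fun u hu => ?_, hTc⟩
      have h2 := hTs hu
      simp only [Finset.mem_filter, Finset.mem_range] at h2
      simp only [C, Finset.mem_filter, Finset.mem_range]
      refine ⟨h2.1.1, ?_, ?_⟩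
      · rw [← h2.2]
      · rw [← h2.2]
    · simp only [Set.mem_iInter]
      intro u hu
      have h2 := hTs hu
      simp only [Finset.mem_filter, Finset.mem_range] at h2
      exact h2.1.2
  refine le_trans (hm _ _ hsub) ?_
  have hb0 : (0:ℝ) ≤ kap ^ N0 + N0 * delta := by positivity
  calc pr (⋃ c ∈ I, ⋃ T ∈ (C c).powersetCard N0, ⋂ u ∈ T, E u)
      ≤ ∑ c ∈ I, pr (⋃ T ∈ (C c).powersetCard N0, ⋂ u ∈ T, E u) := union_bd pr he hs I _
    _ ≤ ∑ c ∈ I, ((M:ℝ) ^ N0 * (kap ^ N0 + N0 * delta)) := by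
        apply Finset.sum_le_sum
        intro c _
        calc pr (⋃ T ∈ (C c).powersetCard N0, ⋂ u ∈ T, E u)
            ≤ ∑ T ∈ (C c).powersetCard N0, pr (⋂ u ∈ T, E u) := union_bd pr he hs _ _
          _ ≤ ∑ T ∈ (C c).powersetCard N0, (kap ^ N0 + N0 * delta) := by
              apply Finset.sum_le_sum
              intro T hT
              rw [Finset.mem_powersetCard] at hT
              have h2 := inter_bd pr h0 h1 E U Ad hadu hadi hade kap delta hk hk1 hd hE T
                (fun u hu => by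
                  have := hT.1 hu
                  simp only [C, Finset.mem_filter, Finset.mem_range] at this
                  exact this.1)
                (fun u hu u' hu' hne => by
                  have h3 := hT.1 hu
                  have h4 := hT.1 hu'
                  simp only [C, Finset.mem_filter, Finset.mem_range] at h3 h4
                  omega)
              rw [hT.2] at h2
              exact h2
          _ = ((C c).card.choose N0 : ℝ) * (kap ^ N0 + N0 * delta) := by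
              rw [Finset.sum_const, Finset.card_powersetCard, nsmul_eq_mul]
          _ ≤ (M:ℝ) ^ N0 * (kap ^ N0 + N0 * delta) := by
              apply mul_le_mul_of_nonneg_right _ hb0
              have h2 : (C c).card.choose N0 ≤ M ^ N0 :=
                le_trans (choose_le_pow' _ _) (Nat.pow_le_pow_left (hCcard c) _)
              exact_mod_cast h2
    _ = 2 * (((U / M : ℕ) : ℝ) + 1) * M ^ N0 * (kap ^ N0 + N0 * delta) := by
        rw [Finset.sum_const, hIcard, nsmul_eq_mul]; push_cast; ring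

end Pool.Agent.W_7d29a1_Z49
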